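import Mathlib
import Pool.Agent.H964.QC.Stm2

set_option autoImplicit false

open MeasureTheory ProbabilityTheory Filter Finset

namespace Pool.Agent.H339.QC

open Pool.Agent.H964.QC

lemma log_le_two_sqrt {L : ℝ} (hL : 1 ≤ L) : 1 + Real.log L ≤ 2 * Real.sqrt L := by
  have h0 : 0 < Real.sqrt L := Real.sqrt_pos.2 (by linarith)
  have h1 : Real.log L = 2 * Real.log (Real.sqrt L) := by
    rw [Real.log_sqrt (by linarith)]; ring
  have h2 := Real.log_le_sub_one_of_pos h0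
  linarith

lemma hh_one_le (g : ℝ) (t a : ℕ) : 1 ≤ hh g t a := le_max_left _ _

lemma log_x {x : ℝ} (hx : 0 ≤ x) : |x - Real.log (1 + x)| ≤ x ^ 2 := by
  have h1 : 0 < 1 + x := by linarith
  have h2 := Real.log_le_sub_one_of_pos h1
  have h3 := Real.one_sub_inv_le_log_of_pos h1
  rw [abs_le]
  constructor
  · nlinarith [sq_nonneg x]
  · have h4 : x - x ^ 2 ≤ 1 - (1 + x)⁻¹ := by
      have h5 : (1 + x)⁻¹ ≤ 1 - x + x ^ 2 := by
        rw [inv_le_iff_one_le_mul₀ h1]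
        nlinarith [mul_nonneg hx (sq_nonneg x)]
      linarith
    linarith

/-- the hypothesis of `S_F4` -/
lemma hyp_F4 (hRR : S_RR) (hHH : S_HH) (hOV : S_OV) (hT1 : S_T1) (hT3 : S_T3) (hTH : S_TH)
    (hPH : S_PH) : ∀ C0 κ : ℝ, 1 ≤ C0 → 0 ≤ κ → ∃ C : ℝ, 1 ≤ C ∧
    ∀ (V : Type) [Fintype V] [DecidableEq V] (N0 : ℕ) (W : Wlk V C0 N0)
    (Ω : Type) [MeasurableSpace Ω] (P : Measure Ω) [IsProbabilityMeasure P] (s2 E : ℝ) (η : ℕ → V → Ω → ℝ)
    (w : V → ℝ) (t T : ℕ), 0 < s2 → Noise P s2 κ η → 1 ≤ t → T ≤ N0 → s2 * RR T < 1 →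
    E = 1 / (1 - s2 * RR T) → C * s2 * E * (1 + Real.log (1 + (T : ℝ) / t)) ≤ 1 →
    (∀ x, 0 ≤ w x) → ∑ x, w x = 1 →
    (∀ (j a : ℕ) (y v : V), j + a ≤ T → G4 W P η j 0 a y v ≤ 2 * E * hh (1 / 4) t a) ∧
    ∀ (j : ℕ) (y : V), j ≤ T → N4 W P η w T j 0 y ≤
      C * (s2 * E * (1 + Real.log (1 + (T : ℝ) / t))) * E * hh (1 / 4) t (T - j) := by
  intro C0 κ hC0 hκ
  obtain ⟨Ct, hCt, hTH'⟩ := hTH hT1 hRR hHH C0 κ hC0 hκ
  obtain ⟨Cp, hCp, hPH'⟩ := hPH hT1 hT3 hRR hHH hOV hTH C0 κ hC0 hκ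
  refine ⟨max Ct Cp, hCt.trans (le_max_left _ _), ?_⟩
  intro V _ _ N0 W Ω _ P _ s2 E η w t T hs hN ht hT hlt hE hcond hw hw1
  have hE0 : 0 < E := by
    rw [hE]; apply one_div_pos.2; linarith
  have hlog : 0 ≤ Real.log (1 + (T : ℝ) / t) := by
    apply Real.log_nonneg
    have : 0 ≤ (T : ℝ) / t := by positivity
    linarith
  have hΛ : 0 ≤ s2 * E * (1 + Real.log (1 + (T : ℝ) / t)) := by positivity
  have hcond' : max Ct Cp * (s2 * E * (1 + Real.log (1 + (T : ℝ) / t))) ≤ 1 := by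
    have e : max Ct Cp * (s2 * E * (1 + Real.log (1 + (T : ℝ) / t))) =
      max Ct Cp * s2 * E * (1 + Real.log (1 + (T : ℝ) / t)) := by ring
    rw [e]; exact hcond
  have c1 : Ct * s2 * E * (1 + Real.log (1 + (T : ℝ) / t)) ≤ 1 := by
    have e : Ct * s2 * E * (1 + Real.log (1 + (T : ℝ) / t)) =
      Ct * (s2 * E * (1 + Real.log (1 + (T : ℝ) / t))) := by ring
    rw [e]
    exact (mul_le_mul_of_nonneg_right (le_max_left _ _) hΛ).trans hcond'
  have c2 : Cp * s2 * E * (1 + Real.log (1 + (T : ℝ) / t)) ≤ 1 := by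
    have e : Cp * s2 * E * (1 + Real.log (1 + (T : ℝ) / t)) =
      Cp * (s2 * E * (1 + Real.log (1 + (T : ℝ) / t))) := by ring
    rw [e]
    exact (mul_le_mul_of_nonneg_right (le_max_right _ _) hΛ).trans hcond'
  refine ⟨hTH' V N0 W Ω P s2 E η t T hs hN ht hT hlt hE c1, fun j y hj => ?_⟩
  refine (hPH' V N0 W Ω P s2 E η w t T hs hN ht hT hlt hE c2 hw hw1 j y hj).trans ?_
  have hh0 : 0 ≤ hh (1 / 4) t (T - j) := (zero_le_one).trans (hh_one_le _ _ _)
  apply mul_le_mul_of_nonneg_right _ hh0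
  apply mul_le_mul_of_nonneg_right _ hE0.le
  exact mul_le_mul_of_nonneg_right (le_max_right _ _) hΛ

/-- the elementary consequences of the choice of the block -/
lemma block_data (hRR : S_RR) {s2 L L' : ℝ} {t T : ℕ} (hs : 0 < s2) (hL : L = 1 / s2 - RR t)
    (hL' : L' = 1 / s2 - RR (t + T)) (h16 : 16 ≤ L') (hlow : Real.sqrt L ≤ RR (t + T) - RR t)
    (hup : RR (t + T) - RR t ≤ Real.sqrt L + 1) (ht : 1 / s2 ^ 4 ≤ t) :
    16 ≤ L ∧ L ≤ 1 / s2 ∧ L / 2 ≤ L' ∧ L' ≤ L ∧ 1 ≤ t ∧ t ≤ T ∧ L * t ≤ ((t + T : ℕ) : ℝ) ∧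
      Real.log (1 + (T : ℝ) / t) ≤ 9 * Real.sqrt L ∧ s2 * RR T < 1 ∧
      s2 * (1 / (1 - s2 * RR T)) ≤ 2 / L := by
  obtain ⟨hr1, hr2, hr3, hr4, hr5, hr6, hr7⟩ := hRR
  have hRRnn : ∀ n, 0 ≤ RR n := fun n => Finset.sum_nonneg fun i _ => (hr1 i).le
  have hRRmono : ∀ a b : ℕ, a ≤ b → RR a ≤ RR b := by
    intro a b hab
    have h1 := hr6 a b hab
    have h2 : 0 ≤ Real.log (((b : ℝ) + 1) / ((a : ℝ) + 1)) := by
      apply Real.log_nonneg
      rw [one_le_div (by positivity)]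
      have : (a : ℝ) ≤ b := by exact_mod_cast hab
      linarith
    linarith
  have hLL' : L' ≤ L := by
    rw [hL, hL']
    have := hRRmono t (t + T) (Nat.le_add_right _ _)
    linarith
  have hL16 : 16 ≤ L := h16.trans hLL'
  have hsq4 : 4 ≤ Real.sqrt L := by
    rw [Real.le_sqrt (by norm_num) (by linarith)]
    linarith
  have hsqL : Real.sqrt L * Real.sqrt L = L := Real.mul_self_sqrt (by linarith)
  have hhalf : Real.sqrt L + 1 ≤ L / 2 := by nlinarith
  have hL1 : L ≤ 1 / s2 := by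
    rw [hL]; have := hRRnn t; linarith
  have hLhalf : L / 2 ≤ L' := by
    have : L' = L - (RR (t + T) - RR t) := by rw [hL, hL']; ring
    linarith
  have ht0 : (0 : ℝ) < t := lt_of_lt_of_le (by positivity) ht
  have ht1 : 1 ≤ t := by
    have : 0 < t := by exact_mod_cast ht0
    omega
  -- the ratio
  have hA := hr5 t (t + T) ht1 (Nat.le_add_right _ _)
  have hratio : Real.exp (2 * Real.sqrt L) ≤ (((t + T : ℕ) : ℝ)) / t := by
    rw [← Real.le_log_iff_exp_le (by positivity)]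
    linarith
  have hexp : 1 + L ≤ Real.exp (2 * Real.sqrt L) := by
    have h1 := Real.quadratic_le_exp_of_nonneg (x := 2 * Real.sqrt L) (by positivity)
    nlinarith
  have hrat2 : (1 + L) * t ≤ ((t + T : ℕ) : ℝ) := by
    rw [← le_div_iff₀ ht0]
    exact hexp.trans hratio
  have hLt : L * t ≤ T := by
    push_cast at hrat2
    linarith
  have htT : t ≤ T := by
    have h1 : (t : ℝ) ≤ T := by nlinarith
    exact_mod_cast h1
  have hB := hr6 t (t + T) (Nat.le_add_right _ _)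
  have hlog : Real.log (1 + (T : ℝ) / t) ≤ 9 * Real.sqrt L := by
    have h1 : 1 + (T : ℝ) / t ≤ 2 * ((((t + T : ℕ) : ℝ) + 1) / ((t : ℝ) + 1)) := by
      have h2 : 1 + (T : ℝ) / t = ((t : ℝ) + T) / t := by field_simp
      rw [h2, ← mul_div_assoc, div_le_div_iff₀ ht0 (by positivity)]
      push_cast
      have h3 : (1 : ℝ) ≤ t := by exact_mod_cast ht1
      have h4 : (0 : ℝ) ≤ T := Nat.cast_nonneg _
      nlinarith
    have h2 : Real.log (1 + (T : ℝ) / t) ≤ Real.log 2 +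
        Real.log ((((t + T : ℕ) : ℝ) + 1) / ((t : ℝ) + 1)) := by
      rw [← Real.log_mul (by norm_num) (by positivity)]
      apply Real.log_le_log (by positivity) h1
    have h3 : Real.log 2 ≤ 1 := by
      have := Real.log_two_lt_d9
      linarith
    linarith
  have hlt : s2 * RR T < 1 := by
    have h1 := hRRmono T (t + T) (Nat.le_add_left _ _)
    have h2 : 0 < 1 / s2 - RR T := by linarith
    have h3 : 0 < s2 * (1 / s2 - RR T) := mul_pos hs h2
    rw [mul_sub, mul_one_div, div_self hs.ne'] at h3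
    linarith
  have hsE : s2 * (1 / (1 - s2 * RR T)) ≤ 2 / L := by
    have h1 := hRRmono T (t + T) (Nat.le_add_left _ _)
    have h2 : L / 2 ≤ 1 / s2 - RR T := by linarith
    have h3 : s2 * (L / 2) ≤ 1 - s2 * RR T := by
      have := mul_le_mul_of_nonneg_left h2 hs.le
      rwa [mul_sub, mul_one_div, div_self hs.ne'] at this
    have h4 : 0 < 1 - s2 * RR T := by linarith
    rw [mul_one_div, div_le_div_iff₀ h4 (by linarith)]
    linarith
  refine ⟨hL16, hL1, hLhalf, hLL', ht1, htT, ?_, hlog, hlt, hsE⟩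
  push_cast
  linarith

/-- Markov's inequality for the fourth moment -/
lemma markov4 {Ω : Type} [MeasurableSpace Ω] (P : Measure Ω) [IsProbabilityMeasure P] {X : Ω → ℝ}
    (hX : Integrable (fun ω => X ω ^ 4) P) :
    P.real {ω | X ω < -(1 / 2)} ≤ 16 * ∫ ω, X ω ^ 4 ∂P := by
  have h1 := mul_meas_ge_le_integral_of_nonneg (μ := P) (f := fun ω => X ω ^ 4)
    (Eventually.of_forall fun ω => by positivity) hX (1 / 16)
  have h2 : P.real {ω | X ω < -(1 / 2)} ≤ P.real {ω | 1 / 16 ≤ X ω ^ 4} := by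
    apply measureReal_mono
    · intro ω hω
      simp only [Set.mem_ofPred_eq] at hω ⊢
      have h3 : (1 / 4 : ℝ) ≤ X ω ^ 2 := by nlinarith
      nlinarith
    · exact measure_ne_top _ _
  linarith

/-- integrability of the fourth power of the centred field -/
lemma XX_int4 (hMEAS : S_MEAS) {V : Type} [Fintype V] [DecidableEq V] {C0 : ℝ} {N0 : ℕ}
    (W : Wlk V C0 N0) {Ω : Type} [MeasurableSpace Ω] (P : Measure Ω) [IsProbabilityMeasure P]
    {s2 κ : ℝ} {η : ℕ → V → Ω → ℝ} (hN : Noise P s2 κ η) (w : V → ℝ) (T j : ℕ) :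
    Integrable (fun ω => (XX W w T (cfg η ω) j) ^ 4) P := by
  obtain ⟨-, -, -, -, -, -, -, hZ, -⟩ := hMEAS V C0 N0 W Ω P s2 κ η hN
  have h1 : MemLp (fun ω => XX W w T (cfg η ω) j) 4 P := by
    unfold XX
    apply memLp_finsetSum
    intro z _
    apply MemLp.const_mul
    exact (hZ j z).sub (memLp_const 1)
  have h2 := h1.integrable_norm_pow (p := 4) (by norm_num)
  refine h2.congr (Eventually.of_forall fun ω => ?_)
  simp only [Real.norm_eq_abs]
  exact (even_two_mul 2).pow_abs _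

theorem t_BLK : S_BLK := by
  intro hRR hHH hOV hGS hB2 hBC hF4 hM2 hMEAS hDUAL hUU hCLN hM4 hT1 hT3 hTH hPH C0 κ hC0 hκ
  obtain ⟨Cg, hCg, hGS'⟩ := hGS C0 hC0
  obtain ⟨Cb, hCb, hB2'⟩ := hB2 hRR hUU hOV hGS hM2 C0 κ hC0 hκ
  obtain ⟨Cc, hCc, hBC'⟩ := hBC hRR hOV hCLN hMEAS hM2 hDUAL C0 κ hC0 hκ
  obtain ⟨Cf, hCf, hF4'⟩ := hF4 hM4 hT1 hT3 hOV hHH (hyp_F4 hRR hHH hOV hT1 hT3 hTH hPH) C0 κ hC0 hκ
  have hCf0 : 0 < Cf := by linarith
  have hCg0 : 0 < Cg := by linarith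
  have hCb0 : 0 < Cb := by linarith
  have hCc0 : 0 < Cc := by linarith
  refine ⟨(2 * Cb + 16) + 404 * (Cf * Cg) + (2 * Cc + 16 * (404 * (Cf * Cg))),
    16 + (20 * Cf) ^ 2 + Cc + (4 + 4 * Cg) ^ 2, ?_, ?_, ?_⟩
  · have : 0 < Cf * Cg := mul_pos hCf0 hCg0
    linarith
  · have h1 := sq_nonneg (20 * Cf)
    have h2 := sq_nonneg (4 + 4 * Cg)
    linarith
  intro V _ _ N0 W Ω _ P _ s2 η w t T L L' hs hN hL hL' hL0 hlow hup ht hN0 hgood
  have e1 := sq_nonneg (20 * Cf)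
  have e2 := sq_nonneg (4 + 4 * Cg)
  obtain ⟨hL16, hLs, hLh, hLL, ht1, htT, hLt, hlog, hlt, hsE⟩ :=
    block_data hRR hs hL hL' (by linarith) hlow hup ht
  obtain ⟨E, hE⟩ : ∃ E, E = 1 / (1 - s2 * RR T) := ⟨_, rfl⟩
  rw [← hE] at hsE
  have hE0 : 0 < E := by rw [hE]; apply one_div_pos.2; linarith
  have hLpos : 0 < L := by linarith
  have hL'pos : 0 < L' := by linarith
  obtain ⟨S, hS⟩ : ∃ S, S = Real.sqrt L := ⟨_, rfl⟩
  have hSS : S * S = L := by rw [hS]; exact Real.mul_self_sqrt hLpos.le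
  have hS4 : 4 ≤ S := by
    rw [hS, Real.le_sqrt (by norm_num) hLpos.le]; linarith
  rw [← hS] at hlow hup hlog
  have hSf : 20 * Cf ≤ S := by
    rw [hS]; apply Real.le_sqrt_of_sq_le; linarith
  have hSg : 4 + 4 * Cg ≤ S := by
    rw [hS]; apply Real.le_sqrt_of_sq_le; linarith
  obtain ⟨Λ, hΛ⟩ : ∃ Λ, Λ = 1 + Real.log (1 + (T : ℝ) / t) := ⟨_, rfl⟩
  have hlog0 : 0 ≤ Real.log (1 + (T : ℝ) / t) := by
    apply Real.log_nonneg
    have : 0 ≤ (T : ℝ) / t := by positivity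
    linarith
  have hΛ1 : 1 ≤ Λ := by rw [hΛ]; linarith
  have hΛS : Λ ≤ 10 * S := by rw [hΛ]; linarith
  have hsE0 : 0 < s2 * E := mul_pos hs hE0
  have hlogL : 1 + Real.log L ≤ 2 * S := by rw [hS]; exact log_le_two_sqrt (by linarith)
  have hlogL0 : 0 ≤ Real.log L := Real.log_nonneg (by linarith)
  -- condition for the fourth moment
  have hcond : Cf * s2 * E * (1 + Real.log (1 + (T : ℝ) / t)) ≤ 1 := by
    rw [← hΛ]
    calc Cf * s2 * E * Λ = Cf * (s2 * E) * Λ := by ring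
      _ ≤ Cf * (2 / L) * (10 * S) := by
          apply mul_le_mul _ hΛS (by linarith) (by positivity)
          exact mul_le_mul_of_nonneg_left hsE hCf0.le
      _ = (20 * Cf) * S / L := by ring
      _ ≤ 1 := by
          rw [div_le_one hLpos]
          nlinarith
  have hTN : T ≤ N0 := by omega
  have htTN : t + T ≤ N0 := by omega
  have hw0 := hgood.nonneg
  have hw1 := hgood.sum
  obtain ⟨g1, g2, g3, g4⟩ := hGS' V N0 W w t T L ht1 (by linarith) htTN hgood
  -- fourth moment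
  have hfour : ∫ ω, (XX W w T (cfg η ω) T) ^ 4 ∂P ≤ 404 * (Cf * Cg) / L := by
    refine (hF4' V N0 W Ω P s2 E η w t T hs hN ht1 hTN hlt hE hcond hw0 hw1).trans ?_
    rw [← hΛ]
    have a1 : s2 * E * Λ * (s2 * E) * ∑ m ∈ Finset.Icc 1 T, ov W w m * hh (1 / 4) t m ≤
        400 * Cg / L := by
      have b1 : ∑ m ∈ Finset.Icc 1 T, ov W w m * hh (1 / 4) t m ≤ 10 * Cg * S := by
        refine g3.trans ?_
        rw [← hS]
        have : Cg * (S + Real.log (1 + (T : ℝ) / t)) ≤ Cg * (S + 9 * S) :=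
          mul_le_mul_of_nonneg_left (by linarith) hCg0.le
        linarith
      calc s2 * E * Λ * (s2 * E) * ∑ m ∈ Finset.Icc 1 T, ov W w m * hh (1 / 4) t m
          ≤ s2 * E * Λ * (s2 * E) * (10 * Cg * S) :=
            mul_le_mul_of_nonneg_left b1 (by positivity)
        _ ≤ (2 / L) * (10 * S) * (2 / L) * (10 * Cg * S) := by
            apply mul_le_mul_of_nonneg_right _ (by positivity)
            apply mul_le_mul _ hsE hsE0.le (by positivity)
            exact mul_le_mul hsE hΛS (by linarith) (by positivity)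
        _ = 400 * Cg * (S * S) / L ^ 2 := by ring
        _ = 400 * Cg / L := by rw [hSS]; field_simp
    have a2 : s2 * E * ((t : ℝ) + 1) ^ (1 / 4 : ℝ) * ∑ m ∈ Finset.Icc 1 T, ov W w m / m ≤
        4 * Cg / L := by
      have ht0 : (0 : ℝ) < t := by exact_mod_cast (by omega : 0 < t)
      have c1 : ((t : ℝ) + 1) ^ (1 / 4 : ℝ) ≤ 2 * (t : ℝ) ^ (1 / 4 : ℝ) := by
        have d1 : (t : ℝ) + 1 ≤ 2 * t := by
          have : (1 : ℝ) ≤ t := by exact_mod_cast ht1
          linarith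
        calc ((t : ℝ) + 1) ^ (1 / 4 : ℝ) ≤ (2 * (t : ℝ)) ^ (1 / 4 : ℝ) :=
              Real.rpow_le_rpow (by positivity) d1 (by norm_num)
          _ = 2 ^ (1 / 4 : ℝ) * (t : ℝ) ^ (1 / 4 : ℝ) := Real.mul_rpow (by norm_num) ht0.le
          _ ≤ 2 * (t : ℝ) ^ (1 / 4 : ℝ) := by
              apply mul_le_mul_of_nonneg_right _ (by positivity)
              calc (2 : ℝ) ^ (1 / 4 : ℝ) ≤ 2 ^ (1 : ℝ) :=
                    Real.rpow_le_rpow_of_exponent_le (by norm_num) (by norm_num)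
                _ = 2 := Real.rpow_one 2
      have c2 : (1 : ℝ) / s2 ≤ (t : ℝ) ^ (1 / 4 : ℝ) := by
        have d1 : ((1 / s2) ^ 4) ^ (1 / 4 : ℝ) ≤ (t : ℝ) ^ (1 / 4 : ℝ) := by
          apply Real.rpow_le_rpow (by positivity) _ (by norm_num)
          rw [one_div_pow]; exact ht
        have d2 : ((1 / s2) ^ 4) ^ (1 / 4 : ℝ) = 1 / s2 := by
          rw [← Real.rpow_natCast (1 / s2) 4, ← Real.rpow_mul (by positivity)]
          norm_num
        rwa [d2] at d1
      have c3 : Real.sqrt t = (t : ℝ) ^ (1 / 4 : ℝ) * (t : ℝ) ^ (1 / 4 : ℝ) := by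
        rw [← Real.rpow_add ht0, Real.sqrt_eq_rpow]
        norm_num
      obtain ⟨q, hq⟩ : ∃ q, q = (t : ℝ) ^ (1 / 4 : ℝ) := ⟨_, rfl⟩
      rw [← hq] at c1 c2 c3
      have hq0 : 0 < q := lt_of_lt_of_le (by positivity) c2
      rw [c3] at g4
      calc s2 * E * ((t : ℝ) + 1) ^ (1 / 4 : ℝ) * ∑ m ∈ Finset.Icc 1 T, ov W w m / m
          ≤ s2 * E * ((t : ℝ) + 1) ^ (1 / 4 : ℝ) * (Cg * L / (q * q)) :=
            mul_le_mul_of_nonneg_left g4 (by positivity)
        _ ≤ (2 / L) * (2 * q) * (Cg * L / (q * q)) := by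
            apply mul_le_mul_of_nonneg_right _ (by positivity)
            exact mul_le_mul hsE c1 (by positivity) (by positivity)
        _ = 4 * Cg / q := by field_simp; norm_num
        _ ≤ 4 * Cg / L := by
            apply div_le_div_of_nonneg_left (by positivity) hLpos
            exact hLs.trans c2
    calc Cf * (s2 * E * Λ * (s2 * E) * ∑ m ∈ Finset.Icc 1 T, ov W w m * hh (1 / 4) t m
          + s2 * E * ((t : ℝ) + 1) ^ (1 / 4 : ℝ) * ∑ m ∈ Finset.Icc 1 T, ov W w m / m)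
        ≤ Cf * (400 * Cg / L + 4 * Cg / L) :=
          mul_le_mul_of_nonneg_left (add_le_add a1 a2) hCf0.le
      _ = 404 * (Cf * Cg) / L := by ring
  have hfg : 0 < Cf * Cg := mul_pos hCf0 hCg0
  refine ⟨?_, ?_, ?_⟩
  · -- second moment
    obtain ⟨u1, u2⟩ := hB2' V N0 W Ω P s2 η w t T L L' hs hN ht1 (by linarith) htTN hL'
      (by linarith) hgood
    have hD : RR (t + T) - RR t = L - L' := by rw [hL, hL']; ring
    rw [hD] at u1 u2 hlow hup
    have u2' := u2 htT (by nlinarith)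
    obtain ⟨x, hx⟩ : ∃ x, x = (L - L') / L' := ⟨_, rfl⟩
    have hx0 : 0 ≤ x := by rw [hx]; exact div_nonneg (by linarith) hL'pos.le
    have hLx : L / L' = 1 + x := by rw [hx]; field_simp; ring
    have hxlog := log_x hx0
    have hxle : x ≤ 4 / S := by
      rw [hx, div_le_div_iff₀ hL'pos (by linarith)]
      nlinarith
    have hx2 : x ^ 2 ≤ 16 / L := by
      calc x ^ 2 ≤ (4 / S) ^ 2 := pow_le_pow_left₀ hx0 hxle 2
        _ = 16 / (S * S) := by ring
        _ = 16 / L := by rw [hSS]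
    rw [hLx]
    have e3 : (L - L' + Cb * (1 + Real.log L)) / L' = x + Cb * (1 + Real.log L) / L' := by
      rw [hx]; ring
    have e4 : (L - L' - Cb * (1 + Real.log L)) / L' = x - Cb * (1 + Real.log L) / L' := by
      rw [hx]; ring
    rw [e3] at u1
    rw [e4] at u2'
    have e5 : Cb * (1 + Real.log L) / L' ≤ 2 * Cb * (1 + Real.log L) / L := by
      rw [div_le_div_iff₀ hL'pos hLpos]
      have : 0 ≤ Cb * (1 + Real.log L) := by positivity
      nlinarith
    have e6 : 16 / L ≤ 16 * (1 + Real.log L) / L := by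
      apply div_le_div_of_nonneg_right _ hLpos.le
      linarith
    have e7 : (2 * Cb + 16) * (1 + Real.log L) / L ≤
        ((2 * Cb + 16) + 404 * (Cf * Cg) + (2 * Cc + 16 * (404 * (Cf * Cg)))) *
          (1 + Real.log L) / L := by
      apply div_le_div_of_nonneg_right _ hLpos.le
      apply mul_le_mul_of_nonneg_right _ (by linarith)
      linarith
    have e8 : (2 * Cb + 16) * (1 + Real.log L) / L =
        2 * Cb * (1 + Real.log L) / L + 16 * (1 + Real.log L) / L := by ring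
    rw [abs_le] at hxlog ⊢
    constructor <;> linarith
  · -- fourth moment
    refine hfour.trans ?_
    apply div_le_div_of_nonneg_right _ hLpos.le
    linarith
  · -- goodness
    have hCcL : Cc ≤ L' := by linarith
    have hov : ∑ m ∈ Finset.Icc 1 T, ov W w m ≤ L' := by
      refine g1.trans ?_
      have : Cg * (1 + Real.log L) ≤ Cg * (2 * S) := mul_le_mul_of_nonneg_left hlogL hCg0.le
      nlinarith
    have h1 := hBC' V N0 W Ω P s2 η w t T L' L' hs hN (by omega) htT hN0 hL' hCcL (by linarith)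
      hw0 hw1 hgood.cls (hgood.spread.trans hLt) hov
    refine h1.trans ?_
    have h2 := markov4 P (XX_int4 hMEAS W P hN w T T)
    have h3 : Cc / L' ≤ 2 * Cc / L := by
      rw [div_le_div_iff₀ hL'pos hLpos]
      nlinarith
    have h4 : (2 * Cb + 16 + 404 * (Cf * Cg) + (2 * Cc + 16 * (404 * (Cf * Cg)))) / L =
        (2 * Cb + 16 + 404 * (Cf * Cg)) / L + (2 * Cc / L + 16 * (404 * (Cf * Cg) / L)) := by
      ring
    have h5 : 0 ≤ (2 * Cb + 16 + 404 * (Cf * Cg)) / L := by positivity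
    rw [h4]
    linarith

end Pool.Agent.H339.QC
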